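import Mathlib

namespace Pool.Agent.MP_3b44a3_an

open MeasureTheory Filter Topology

/-- `f` is slice regular on the unit ball: on every slice `x + y I` (`I ^ 2 = -1`,
`x ^ 2 + y ^ 2 < 1`) it is `C ^ 1` and satisfies `(∂_x + I ∂_y) f = 0`. -/
def SliceRegular (f : Quaternion ℝ → Quaternion ℝ) : Prop :=
  ∀ I : Quaternion ℝ, I ^ 2 = -1 →
    ContDiffOn ℝ 1 (fun p : ℝ × ℝ => f ((p.1 : Quaternion ℝ) + p.2 • I))
      {p : ℝ × ℝ | p.1 ^ 2 + p.2 ^ 2 < 1} ∧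
    ∀ x y : ℝ, x ^ 2 + y ^ 2 < 1 →
      deriv (fun t : ℝ => f ((t : Quaternion ℝ) + y • I)) x +
        I * deriv (fun t : ℝ => f ((x : Quaternion ℝ) + t • I)) y = 0

/-- `f q = ∑ q ^ n a_n` on the unit ball. -/
def HasSeries (f : Quaternion ℝ → Quaternion ℝ) (a : ℕ → Quaternion ℝ) : Prop :=
  ∀ q : Quaternion ℝ, ‖q‖ < 1 → HasSum (fun n => q ^ n * a n) (f q)

/-- coefficients of the conjugate `f ^ c` -/
def conjCoeff (a : ℕ → Quaternion ℝ) (n : ℕ) : Quaternion ℝ := star (a n)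

/-- coefficients of the `*`-product -/
noncomputable def starCoeff (a b : ℕ → Quaternion ℝ) (n : ℕ) : Quaternion ℝ :=
  ∑ k ∈ Finset.range (n + 1), a k * b (n - k)

/-- the boundary point `e ^ (t I) = cos t + sin t I`, `I` the imaginary unit with coordinates `v` -/
noncomputable def bdry (v : Metric.sphere (0 : EuclideanSpace ℝ (Fin 3)) 1) (t : ℝ) :
    Quaternion ℝ :=
  ⟨Real.cos t, Real.sin t * v.1 0, Real.sin t * v.1 1, Real.sin t * v.1 2⟩

/-- `φ` is inner: slice regular, of modulus at most one on the ball, and with radial limits of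
modulus one at `e ^ (t I)` for almost every `(I, t)` for `dσ(I) dt`. -/
def IsInner (φ : Quaternion ℝ → Quaternion ℝ) : Prop :=
  SliceRegular φ ∧ (∀ q : Quaternion ℝ, ‖q‖ < 1 → ‖φ q‖ ≤ 1) ∧
    ∀ᵐ p ∂((volume : Measure (EuclideanSpace ℝ (Fin 3))).toSphere.prod (volume : Measure ℝ)),
      ∃ L : Quaternion ℝ, Tendsto (fun r : ℝ => φ (r • bdry p.1 p.2)) (𝓝[<] 1) (𝓝 L) ∧ ‖L‖ = 1

end Pool.Agent.MP_3b44a3_an
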