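import Mathlib
import Pool.Agent.MP_3b44a3_an.Defs

namespace Pool.Agent.MP_3b44a3_an

open MeasureTheory Filter Topology

/-- the example -/
noncomputable def ex (J : Quaternion ℝ) (q : Quaternion ℝ) : Quaternion ℝ :=
  (1 + (1 / 4 : ℝ) • q ^ 2)⁻¹ * (1 - (1 / 4 : ℝ) • q ^ 2) + (1 + (1 / 4 : ℝ) • q ^ 2)⁻¹ * q * J

/-- real weights -/
noncomputable def wt (n : ℕ) : ℝ := if n = 0 then 1 else 2

/-- its coefficients -/
noncomputable def co (J : Quaternion ℝ) (n : ℕ) : Quaternion ℝ := wt n • ((1 / 2 : ℝ) • J) ^ n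

theorem sliceRegular_of (f : Quaternion ℝ → Quaternion ℝ) (g₁ g₂ : ℂ → ℂ) (J : Quaternion ℝ)
    (h₁ : ∀ z : ℂ, ‖z‖ < 1 → ContDiffAt ℂ 1 g₁ z) (h₂ : ∀ z : ℂ, ‖z‖ < 1 → ContDiffAt ℂ 1 g₂ z)
    (hf : ∀ (φ : ℂ →ₐ[ℝ] Quaternion ℝ) (z : ℂ), f (φ z) = φ (g₁ z) + φ (g₂ z) * J) :
    SliceRegular f := by
  intro I hI
  have hI' : I * I = -1 := by rw [← pow_two]; exact hI
  let φ : ℂ →ₐ[ℝ] Quaternion ℝ := Complex.liftAux I hI'
  let ψ : ℂ →L[ℝ] Quaternion ℝ := LinearMap.toContinuousLinearMap φ.toLinearMap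
  have hψ : ∀ z, ψ z = φ z := fun _ => rfl
  have hφ : ∀ x y : ℝ, (x : Quaternion ℝ) + y • I = φ ((x : ℂ) + (y : ℂ) * Complex.I) := by
    intro x y
    simp [φ, Complex.liftAux_apply]
  have hφI : φ Complex.I = I := Complex.liftAux_apply_I I hI'
  have hnorm : ∀ x y : ℝ, x ^ 2 + y ^ 2 < 1 → ‖(x : ℂ) + (y : ℂ) * Complex.I‖ < 1 := by
    intro x y h
    rw [Complex.norm_add_mul_I, Real.sqrt_lt' one_pos]
    simpa using h
  constructor
  · intro p hp
    apply ContDiffAt.contDiffWithinAt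
    simp only [hφ, hf]
    simp only [← hψ]
    have he : ContDiffAt ℝ 1 (fun p : ℝ × ℝ => (p.1 : ℂ) + (p.2 : ℂ) * Complex.I) p := by
      have a1 : ContDiffAt ℝ 1 (fun p : ℝ × ℝ => (p.1 : ℂ)) p :=
        Complex.ofRealCLM.contDiff.contDiffAt.comp p contDiffAt_fst
      have a2 : ContDiffAt ℝ 1 (fun p : ℝ × ℝ => (p.2 : ℂ)) p :=
        Complex.ofRealCLM.contDiff.contDiffAt.comp p contDiffAt_snd
      exact a1.add (a2.mul contDiffAt_const)
    have b1 := ((h₁ _ (hnorm _ _ hp)).restrict_scalars ℝ).comp p he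
    have b2 := ((h₂ _ (hnorm _ _ hp)).restrict_scalars ℝ).comp p he
    exact (ψ.contDiff.contDiffAt.comp p b1).add
      ((ψ.contDiff.contDiffAt.comp p b2).mul contDiffAt_const)
  · intro x y h
    simp only [hφ, hf]
    simp only [← hψ]
    have d1 := ((h₁ _ (hnorm _ _ h)).differentiableAt one_ne_zero).hasDerivAt
    have d2 := ((h₂ _ (hnorm _ _ h)).differentiableAt one_ne_zero).hasDerivAt
    have ex1 : HasDerivAt (fun t : ℝ => (t : ℂ) + (y : ℂ) * Complex.I) 1 x :=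
      (Complex.ofRealCLM.hasDerivAt (x := x)).add_const _
    have ey1 : HasDerivAt (fun t : ℝ => (x : ℂ) + (t : ℂ) * Complex.I) Complex.I y := by
      have := ((Complex.ofRealCLM.hasDerivAt (x := y)).mul_const Complex.I).const_add (x : ℂ)
      simpa using this
    have cx : ∀ {g : ℂ → ℂ} {g' : ℂ}, HasDerivAt g g' ((x : ℂ) + (y : ℂ) * Complex.I) →
        HasDerivAt (fun t : ℝ => ψ (g ((t : ℂ) + (y : ℂ) * Complex.I))) (ψ g') x := by
      intro g g' hg
      have := hg.scomp x ex1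
      have h2 := ψ.hasFDerivAt.comp_hasDerivAt x this
      simpa [Function.comp_def] using h2
    have cy : ∀ {g : ℂ → ℂ} {g' : ℂ}, HasDerivAt g g' ((x : ℂ) + (y : ℂ) * Complex.I) →
        HasDerivAt (fun t : ℝ => ψ (g ((x : ℂ) + (t : ℂ) * Complex.I))) (I * ψ g') y := by
      intro g g' hg
      have := hg.scomp y ey1
      have h2 := ψ.hasFDerivAt.comp_hasDerivAt y this
      have e : ψ (Complex.I • g') = I * ψ g' := by
        rw [hψ, hψ, smul_eq_mul, map_mul, hφI]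
      rw [e] at h2
      simpa [Function.comp_def] using h2
    rw [((cx d1).fun_add ((cx d2).mul_const J)).deriv,
      ((cy d1).fun_add ((cy d2).mul_const J)).deriv]
    simp only [mul_add, ← mul_assoc, hI']
    noncomm_ring

theorem denom_ne (z : ℂ) (hz : ‖z‖ < 1) : 1 + (1 / 4 : ℝ) • z ^ 2 ≠ 0 := by
  intro h
  have h1 : (1 / 4 : ℝ) • z ^ 2 = -1 := by linear_combination h
  have h2 := congrArg norm h1
  rw [norm_smul, norm_pow, norm_neg, norm_one] at h2
  have : ‖(1 / 4 : ℝ)‖ = 1 / 4 := by norm_num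
  rw [this] at h2
  nlinarith [norm_nonneg z]

theorem ex_sliceRegular (J : Quaternion ℝ) : SliceRegular (ex J) := by
  refine sliceRegular_of _ (fun z => (1 + (1 / 4 : ℝ) • z ^ 2)⁻¹ * (1 - (1 / 4 : ℝ) • z ^ 2))
    (fun z => (1 + (1 / 4 : ℝ) • z ^ 2)⁻¹ * z) J ?_ ?_ ?_
  · intro z hz
    refine ContDiffAt.mul (ContDiffAt.inv (by fun_prop) (denom_ne z hz)) (by fun_prop)
  · intro z hz
    refine ContDiffAt.mul (ContDiffAt.inv (by fun_prop) (denom_ne z hz)) (by fun_prop)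
  · intro φ z
    simp only [ex, map_mul, map_inv₀, map_add, map_sub, map_one, map_smul, map_pow]

theorem one_sliceRegular : SliceRegular (fun _ => 1) := by
  intro I _
  exact ⟨contDiffOn_const, fun x y _ => by simp⟩

theorem one_inner : IsInner (fun _ => 1) :=
  ⟨one_sliceRegular, fun _ _ => by simp,
    ae_of_all _ fun _ => ⟨1, tendsto_const_nhds, norm_one⟩⟩

theorem ex_hasSeries (J : Quaternion ℝ) (hJ : J * J = -1) : HasSeries (ex J) (co J) := by
  intro q hq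
  set w : Quaternion ℝ := -((1 / 4 : ℝ) • q ^ 2) with hw
  have hwn : ‖w‖ < 1 := by
    rw [hw, norm_neg, norm_smul, norm_pow]
    have : ‖(1 / 4 : ℝ)‖ = 1 / 4 := by norm_num
    rw [this]
    nlinarith [norm_nonneg q]
  have hg := hasSum_geometric_of_norm_lt_one hwn
  have hu2 : ((1 / 2 : ℝ) • J) ^ 2 = (-(1 / 4) : ℝ) • (1 : Quaternion ℝ) := by
    rw [smul_pow, pow_two J, hJ]; simp; norm_num
  have heven : ∀ k : ℕ, q ^ (2 * k) * ((1 / 2 : ℝ) • J) ^ (2 * k) = w ^ k := by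
    intro k
    rw [pow_mul, pow_mul, hu2, hw, ← neg_smul, smul_pow, smul_pow, one_pow, mul_smul_comm, mul_one]
  have h1 : HasSum (fun n => q ^ n * ((1 / 2 : ℝ) • J) ^ n)
      ((1 - w)⁻¹ + (1 - w)⁻¹ * (q * ((1 / 2 : ℝ) • J))) := by
    apply HasSum.even_add_odd
    · simpa only [heven] using hg
    · have := hg.mul_right (q * ((1 / 2 : ℝ) • J))
      have e : ∀ k : ℕ, q ^ (2 * k + 1) * ((1 / 2 : ℝ) • J) ^ (2 * k + 1) =
          w ^ k * (q * ((1 / 2 : ℝ) • J)) := by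
        intro k
        rw [← heven k, pow_mul ((1 / 2 : ℝ) • J), pow_succ ((1 / 2 : ℝ) • J),
          pow_mul ((1 / 2 : ℝ) • J), hu2, smul_pow, one_pow, pow_succ]
        simp only [mul_smul_comm, smul_mul_assoc, mul_one, one_mul, mul_assoc]
      simpa only [e] using this
  have h2 := h1.const_smul (2 : ℝ)
  have h3 : HasSum (fun n : ℕ => if n = 0 then (-1 : Quaternion ℝ) else 0) (-1) :=
    hasSum_ite_eq 0 (-1)
  have h4 := h2.add h3
  have hne : (1 - w) ≠ 0 := by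
    intro h
    have : w = 1 := (sub_eq_zero.mp h).symm
    rw [this, norm_one] at hwn
    exact lt_irrefl _ hwn
  convert h4 using 1
  · ext1 n
    by_cases hn : n = 0
    · subst hn
      simp [co, wt]
      rw [two_smul]; simp
    · simp [co, wt, hn]
  · have e1 : 1 + (1 / 4 : ℝ) • q ^ 2 = 1 - w := by rw [hw, sub_neg_eq_add]
    have e2 : 1 - (1 / 4 : ℝ) • q ^ 2 = (2 : ℝ) • 1 - (1 - w) := by
      rw [hw, two_smul]; abel
    rw [ex, e1, e2, mul_sub, inv_mul_cancel₀ hne]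
    simp only [mul_smul_comm, mul_one, smul_add, smul_smul, mul_assoc]
    norm_num
    abel

theorem wt_sum (n : ℕ) : ∑ k ∈ Finset.range (n + 1), wt k * (-1) ^ k * wt (n - k) =
    if n = 0 then 1 else 0 := by
  cases n with
  | zero => simp [wt]
  | succ m =>
    rw [Finset.sum_range_succ, Finset.sum_range_succ']
    have : ∀ k ∈ Finset.range m, wt (k + 1) * (-1) ^ (k + 1) * wt (m + 1 - (k + 1)) =
        -4 * (-1 : ℝ) ^ k := by
      intro k hk
      have : m + 1 - (k + 1) ≠ 0 := by have := Finset.mem_range.mp hk; omega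
      simp only [wt, this, if_false, Nat.succ_ne_zero]
      ring
    rw [Finset.sum_congr rfl this, ← Finset.mul_sum, neg_one_geom_sum]
    rcases Nat.even_or_odd m with h | h
    · simp [wt, h, pow_succ, h.neg_one_pow]
    · simp [wt, Nat.not_even_iff_odd.mpr h, pow_succ, h.neg_one_pow]; norm_num

theorem conj_co (J : Quaternion ℝ) (hJ : star J = -J) : conjCoeff (co J) = co (-J) := by
  ext1 n
  simp [conjCoeff, co, hJ]

theorem symm_co (J : Quaternion ℝ) (n : ℕ) :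
    starCoeff (co (-J)) (co J) n = if n = 0 then 1 else 0 := by
  have : ∀ k ∈ Finset.range (n + 1), co (-J) k * co J (n - k) =
      (wt k * (-1) ^ k * wt (n - k)) • ((1 / 2 : ℝ) • J) ^ n := by
    intro k hk
    have hk' : k ≤ n := by have := Finset.mem_range.mp hk; omega
    have e : (1 / 2 : ℝ) • (-J) = (-1 : ℝ) • ((1 / 2 : ℝ) • J) := by simp
    rw [co, co, e, smul_pow (-1 : ℝ), smul_smul, smul_mul_smul_comm, ← pow_add,
      Nat.add_sub_cancel' hk']
  rw [starCoeff, Finset.sum_congr rfl this, ← Finset.sum_smul, wt_sum]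
  split_ifs with h
  · simp [h]
  · simp

theorem one_hasSeries : HasSeries (fun _ => 1) (fun n => if n = 0 then 1 else 0) := by
  intro q _
  convert hasSum_ite_eq 0 (1 : Quaternion ℝ) using 1
  ext1 n
  by_cases h : n = 0 <;> simp [h]

theorem norm_co (J : Quaternion ℝ) (hJ : ‖J‖ = 1) (n : ℕ) : ‖co J n‖ ≤ 2 * (1 / 2) ^ n := by
  rw [co, norm_smul, norm_pow, norm_smul, hJ]
  have h1 : ‖(1 / 2 : ℝ)‖ = 1 / 2 := by norm_num
  have h2 : ‖wt n‖ ≤ 2 := by
    unfold wt; split_ifs <;> norm_num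
  rw [h1, mul_one]
  gcongr

theorem summable_co (J : Quaternion ℝ) (hJ : ‖J‖ = 1) : Summable fun n => ‖co J n‖ ^ 2 := by
  refine Summable.of_nonneg_of_le (fun _ => by positivity) (fun n => ?_)
    ((summable_geometric_of_lt_one (r := 1 / 4) (by norm_num) (by norm_num)).mul_left 4)
  calc ‖co J n‖ ^ 2 ≤ (2 * (1 / 2) ^ n) ^ 2 := by gcongr; exact norm_co J hJ n
    _ = 4 * (1 / 4) ^ n := by rw [mul_pow, ← pow_mul, mul_comm n 2, pow_mul]; norm_num

theorem ex_bounded (J : Quaternion ℝ) (hJ : J * J = -1) (hJn : ‖J‖ = 1) (q : Quaternion ℝ)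
    (hq : ‖q‖ < 1) : ‖ex J q‖ ≤ 4 := by
  have h := ex_hasSeries J hJ q hq
  have hg : HasSum (fun n : ℕ => 2 * (1 / 2 : ℝ) ^ n) 4 := by
    have := hasSum_geometric_two.mul_left 2
    norm_num at this ⊢
    exact this
  refine h.norm_le_of_bounded hg fun n => ?_
  rw [norm_mul, norm_pow]
  calc ‖q‖ ^ n * ‖co J n‖ ≤ 1 * (2 * (1 / 2) ^ n) := by
        gcongr
        · exact pow_le_one₀ (norm_nonneg _) hq.le
        · exact norm_co J hJn n
    _ = _ := one_mul _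

theorem ex_not_inner (J : Quaternion ℝ) (hJ : J * J = -1) (hJn : ‖J‖ = 1) : ¬ IsInner (ex J) := by
  intro h
  have h1 := h.2.1 ((-(1 / 2) : ℝ) • J) (by rw [norm_smul, hJn]; norm_num)
  have e1 : ((-(1 / 2) : ℝ) • J) ^ 2 = (-(1 / 4) : ℝ) • (1 : Quaternion ℝ) := by
    rw [smul_pow, pow_two J, hJ]; simp; norm_num
  have e2 : 1 + (1 / 4 : ℝ) • ((-(1 / 2) : ℝ) • J) ^ 2 = (15 / 16 : ℝ) • (1 : Quaternion ℝ) := by
    rw [e1, smul_smul]
    nth_rewrite 1 [← one_smul ℝ (1 : Quaternion ℝ)]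
    rw [← add_smul]; norm_num
  have e3 : 1 - (1 / 4 : ℝ) • ((-(1 / 2) : ℝ) • J) ^ 2 = (17 / 16 : ℝ) • (1 : Quaternion ℝ) := by
    rw [e1, smul_smul]
    nth_rewrite 1 [← one_smul ℝ (1 : Quaternion ℝ)]
    rw [← sub_smul]; norm_num
  have e4 : ex J ((-(1 / 2) : ℝ) • J) = (5 / 3 : ℝ) • (1 : Quaternion ℝ) := by
    rw [ex, e2, e3, smul_inv₀, inv_one]
    simp only [smul_mul_assoc, mul_smul_comm, one_mul, smul_smul, hJ, smul_neg]
    rw [← neg_smul, ← add_smul]; norm_num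
  rw [e4, norm_smul, norm_one] at h1
  norm_num at h1

/-- the unit `i` -/
def qi : Quaternion ℝ := ⟨0, 1, 0, 0⟩

theorem qi_sq : qi * qi = -1 := by ext <;> simp [qi] <;> rfl
theorem qi_star : star qi = -qi := by ext <;> simp [qi]
theorem qi_norm : ‖qi‖ = 1 := by
  have := congrArg norm qi_sq
  rw [norm_mul, norm_neg, norm_one] at this
  nlinarith [norm_nonneg qi]

end Pool.Agent.MP_3b44a3_an
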